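import Pool.Agent.U247.TP.Nor

/-!
# Limits and degenerations of the varieties for which Q1 holds

The setting and the notions `Tilting`, `BaseField`, `IsConeOver`, `DimGE`, `DimLEOver`, `Approximable` are
those of `AllPerfectoidFields` (starting point): `K` is a perfectoid field of characteristic `0`,
`E = K♭` its tilt, `C` the completion of an algebraic closure of `K`, and `F = C♭`. Closed subsets of
projective space are given by their cones, and `Approximable T K E X d` is Q1 over `K` for a closed
subset `X` of dimension `d` defined over `K`: for all homogeneous polynomials `P_k` over `K` which vanish on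
`X` and all `ε > 0` there is a closed subset `Y` of dimension `d` defined over `E = K♭` with
`|P_k(y♯)| ≤ ε ‖y‖ ^ (deg P_k)` for all `k` and all points `y` of `Y`. `Good T K E X d` (`X271.TQ`): `X` is closed,
defined over `K`, of dimension `d`, and Q1 holds for `X`.

In each of the following four theorems `X` is a closed subset of `ℙ^n` over `K`, of dimension at most `d`,
and the conclusion is that `X` has dimension `d` and that Q1 holds for `X`.

1. Limits. Let `P_1, ..., P_r` be forms whose common zeros are in `X` (for example equations of `X`).
   Suppose that for every `ε > 0` there are a closed subset `X'` of dimension `d` for which Q1 holds and forms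
   `P'_k` which vanish on `X'` and differ from `P_k` by at most `ε` on the unit ball. Then Q1 holds for `X`. So
   the set of the points of the Hilbert scheme for which Q1 holds is closed in the `p`-adic topology.
2. Degenerations. Let `P_k(s, x)` be forms in `x` which depend polynomially on the parameters `s`, and
   `h ≠ 0` a polynomial. Suppose that for all `s` with `h(s) ≠ 0` Q1 holds for a closed subset of
   dimension `d` on which the `P_k(s, x)` vanish. Then for all `s₀` Q1 holds for every closed subset of
   dimension `d` which contains the common zeros of the `P_k(s₀, x)`. So if Q1 holds for the general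
   member of such a family, then it holds for every member of the same dimension.
3. Sections of excess bundles. Let Q1 hold for `V`, of dimension `δ`, let `q_1, ..., q_c` and
   `a_1, ..., a_c` be forms with `deg a_i = deg q_i`, and let `(S_ji)` be polynomials with `∑ S_ji q_i = 0` on
   `V` (syzygies), `d ≤ δ - c`. If `X` contains all points of `V` with `q_i = 0` for all `i` and
   `∑ S_ji a_i = 0` for all `j`, then Q1 holds for `X`. Here nothing is assumed about
   `Z = {x ∈ V : q(x) = 0}`, which is of larger dimension if the syzygies are not the trivial ones: if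
   `V` and `Z` are smooth (and the `q_i` generate the ideal of `Z` in `V`, the `S_j` their syzygies) then
   `X` is the zero locus in `Z` of the section of the excess bundle `(⊕ O(deg q_i)|_Z) / N_Z` given by the `a_i`.
4. Sections of normal bundles. Let Q1 hold for `V₁` in `ℙ^n` and for `V₂` in `ℙ^m`, of dimensions `δ₁` and `δ₂`,
   let `H_1, ..., H_r` be forms whose set of common zeros is `V₂`, and let `f` and `g` be tuples of `m + 1`
   forms of the same degree on `ℙ^n` such that `f` maps `V₁` to `V₂`; `d ≤ δ₁ - (m - δ₂)`. If `X` contains all
   `x` in `V₁` with `∑ g_i(x) (∂_i H_l)(f(x)) = 0` for all `l`, then Q1 holds for `X`. If the `H_l` generate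
   the ideal of the smooth variety `V₂`, then this is the zero locus of the section of `f^* N_{V₂}`
   given by `g`. For example (`V₁ = V₂ = V`, `f = id`, `g` linear) Q1 holds for the zero loci, of the expected
   dimension, of the sections of the normal bundle of `V` which come from vector fields on `ℙ^n`.

The starting files prove the stability of Q1 under sections, images, unions, products, joins, coverings,
inverse images and proper intersections, degeneracy loci of the expected dimension, and descent of the
base field. None of them allows to pass to a limit, and 3 and 4 concern intersections which are not of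
the expected dimension.

Examples (not part of the formal statement). Let `V = ℙ^9` and let `q` be the five Plücker quadrics,
that is, the Pfaffians of the generic skew `5 × 5` matrix `M`; `M q = 0`, so `S = M`. For five general quadrics
`a_1, ..., a_5` the set `X = {q = 0, M a = 0}` is the zero locus of a general section of the globally
generated bundle `S^*(2)` on the Grassmannian `G(2, 5)`, a smooth Calabi-Yau fourfold in `G(2, 5)` of
degree `32`, and Q1 holds for it by 3, although we do not know Q1 for `G(2, 5)`. It is a degeneration
of the complete intersections of five quadrics, but not one of them. Similarly, for the `2 × 2` minors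
`q` of a `2 × 3` matrix of linear forms on `ℙ^4` and general quadrics `a` one obtains the trigonal canonical
curves of genus `5`, and on `ℙ^5` the K3 surfaces of degree `8` with an elliptic pencil of cubics.

Proof. 1. For `y` in the approximation of `X'`, `|P'_k(y♯)|` is small, so `|P_k(y♯)|` is small. By the
Nullstellensatz over `C` all forms which vanish on `X` are small then, and the dimension of the
approximating set is at most `d` because of `d + 1` forms over `E` which approximate forms over `K`
without common zeros on `X` (`approx_of_system`). 2. Restrict the family to a line through `s₀` on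
which `h` does not vanish identically. 3. By the same argument over `C` the dimension of
`X_t = {x ∈ V : q_i + t a_i = 0}` is at most `d` for small `t` (`dimLE_limit`), so Q1 holds for `X_t`. On `X_t`
we have `t ∑ S_ji a_i = ∑ S_ji (q_i + t a_i) - ∑ S_ji q_i = 0`, so `∑ S_ji a_i = 0` if `t ≠ 0`. 4. The same
with `X_t = {x ∈ V₁ : f(x) + t g(x) ∈ V₂}` and the forms `(H_l(f + t g) - H_l(f)) / t`.
-/

set_option autoImplicit false

namespace Pool.Agent.Results.MP_db3ab1_ag.Degenerations

open MvPolynomial Pool.Agent.Y129.TA Pool.Agent.U247.TP
open Pool.Agent.Y129.TB (BaseField IsConeOver DimLEOver)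
open Pool.Agent.X271.TQ (Good)

/-- Q1 is stable under limits and degenerations; it holds for zero loci of sections of excess bundles
and of pull-backs of normal bundles. -/
theorem result {p : ℕ} [Fact p.Prime] {C F K E : Type} [Field C] [Field F] [CharP F p] [Field K]
    [Field E] [Algebra K C] [Algebra E F] [IsAlgClosed C] [IsAlgClosed F] (T : Tilting p C F)
    (B : BaseField T K E) {n d : ℕ} (X : Set (Fin (n + 1) → C)) (hc : IsConeOver K X)
    (hle : DimLEOver K X d) :
    -- limits
    (∀ (r : ℕ) (P : Fin r → MvPolynomial (Fin (n + 1)) K), (∀ k, IsForm (P k)) →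
      (∀ v : Fin (n + 1) → C, (∀ k, aeval v (P k) = 0) → v ∈ X) →
      (∀ ε : ℝ, 0 < ε → ∃ (X' : Set (Fin (n + 1) → C)) (P' : Fin r → MvPolynomial (Fin (n + 1)) K),
        Good T.toTiltPair K E X' d ∧ (∀ k, IsForm (P' k)) ∧
        (∀ k, ∀ x ∈ X', aeval x (P' k) = 0) ∧ ∀ k, Close T.toTiltPair ε (P k) (P' k)) →
      Good T.toTiltPair K E X d) ∧
    -- degenerations
    (∀ (r N : ℕ) (P : Fin r → MvPolynomial (Fin N) (MvPolynomial (Fin (n + 1)) K))
      (s₀ : Fin N → K) (h : MvPolynomial (Fin N) K), (∀ k, FamForm (P k)) → h ≠ 0 →
      (∀ v : Fin (n + 1) → C, (∀ k, aeval v (member (P k) s₀) = 0) → v ∈ X) →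
      (∀ s : Fin N → K, eval s h ≠ 0 → ∃ X' : Set (Fin (n + 1) → C),
        Good T.toTiltPair K E X' d ∧ ∀ k, ∀ x ∈ X', aeval x (member (P k) s) = 0) →
      Good T.toTiltPair K E X d) ∧
    -- zero loci of sections of excess bundles
    (∀ (δ c r : ℕ) (V : Set (Fin (n + 1) → C)) (D : Fin c → ℕ)
      (q a : Fin c → MvPolynomial (Fin (n + 1)) K)
      (S : Fin r → Fin c → MvPolynomial (Fin (n + 1)) K), Good T.toTiltPair K E V δ →
      (∀ i, 0 < D i) → (∀ i, (q i).IsHomogeneous (D i)) → (∀ i, (a i).IsHomogeneous (D i)) →
      (∀ j, IsForm (∑ i, S j i * a i)) → (∀ j, ∀ x ∈ V, aeval x (∑ i, S j i * q i) = 0) →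
      c + d ≤ δ →
      (∀ x ∈ V, (∀ i, aeval x (q i) = 0) → (∀ j, aeval x (∑ i, S j i * a i) = 0) → x ∈ X) →
      Good T.toTiltPair K E X d) ∧
    -- zero loci of sections of pull-backs of normal bundles
    (∀ (m δ₁ δ₂ e r : ℕ) (V₁ : Set (Fin (n + 1) → C)) (V₂ : Set (Fin (m + 1) → C))
      (H : Fin r → MvPolynomial (Fin (m + 1)) K)
      (f g : Fin (m + 1) → MvPolynomial (Fin (n + 1)) K), Good T.toTiltPair K E V₁ δ₁ →
      Good T.toTiltPair K E V₂ δ₂ → (∀ l, IsForm (H l)) →
      (∀ y : Fin (m + 1) → C, y ∈ V₂ ↔ ∀ l, aeval y (H l) = 0) → 0 < e →
      (∀ i, (f i).IsHomogeneous e) → (∀ i, (g i).IsHomogeneous e) →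
      (∀ x ∈ V₁, (fun i => aeval x (f i)) ∈ V₂) → d + m ≤ δ₁ + δ₂ →
      (∀ x ∈ V₁, (∀ l, aeval x (∑ i, g i * aeval f (pderiv i (H l))) = 0) → x ∈ X) →
      Good T.toTiltPair K E X d) :=
  ⟨fun _ P hP hPX h => good_limit T B hc hle P hP hPX h,
    fun _ _ P s₀ h hP h0 hPX hh => good_general T B hc hle P hP s₀ hPX h h0 hh,
    fun _ _ _ _ D q a S hV hD hq ha hS hSq hd hX =>
      good_excess T B hV q a D hD hq ha S hS hSq hd hc hle hX,
    fun _ _ _ _ _ _ _ H f g h₁ h₂ hH hHV he hf hg hfV hd hX =>
      good_normal T B h₁ h₂ H hH hHV f g he hf hg hfV hd hc hle hX⟩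

end Pool.Agent.Results.MP_db3ab1_ag.Degenerations
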